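import Mathlib

set_option autoImplicit false

namespace Pool.Agent.Results.MP_8a822d_gt.NoEmbed

open Set Topology TopologicalSpace

section
variable (X Y : Type) [TopologicalSpace X] [TopologicalSpace Y]

/-- separately continuous real functions on `X × Y` -/
def S : Type :=
  {f : X × Y → ℝ // (∀ x, Continuous fun y => f (x, y)) ∧ ∀ y, Continuous fun x => f (x, y)}

variable {X Y}

/-- the cross of a point -/
def cross (c : X × Y) : Set (X × Y) := {p | p.2 = c.2 ∨ p.1 = c.1}

variable (X Y)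

/-- the cross-open topology; a set open in the cross `C` is written `G ∩ C` with `G` open -/
def cro : TopologicalSpace (S X Y) :=
  generateFrom {T | ∃ (c : X × Y) (G : Set (X × Y)) (W : Set ℝ), IsOpen G ∧ IsOpen W ∧
    T = {s : S X Y | ∀ p ∈ closure (G ∩ cross c) ∩ cross c, s.1 p ∈ W}}

/-- the cross-uniform topology, generated by the balls of the extended pseudometrics `d_c` -/
def cru : TopologicalSpace (S X Y) :=
  generateFrom {T | ∃ (c : X × Y) (s : S X Y) (r : ENNReal),
    T = {t : S X Y | ⨆ p ∈ cross c, edist (s.1 p) (t.1 p) < r}}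

variable {X Y}

lemma metr [SeparableSpace X] [SeparableSpace Y] (τ : TopologicalSpace (S X Y))
    (h : ∀ p, Continuous[τ, _] fun s : S X Y => s.1 p) (K : Set (S X Y))
    (hK : @IsCompact _ τ K) : @MetrizableSpace K (τ.induced Subtype.val) := by
  letI := τ
  obtain ⟨D, hD, hDd⟩ := exists_countable_dense X
  obtain ⟨E, hE, hEd⟩ := exists_countable_dense Y
  haveI := hD.to_subtype
  haveI := hE.to_subtype
  haveI : CompactSpace K := isCompact_iff_compactSpace.1 hK
  let φ : K → (D × E → ℝ) := fun s q => s.1.1 (q.1, q.2)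
  have hc : Continuous φ := continuous_pi fun q => (h _).comp continuous_subtype_val
  have hi : Function.Injective φ := by
    intro s t hst
    apply Subtype.ext
    apply Subtype.ext
    funext ⟨x, y⟩
    have h1 : ∀ a ∈ D, s.1.1 (a, y) = t.1.1 (a, y) := fun a ha =>
      congrFun (Continuous.ext_on hEd (s.1.2.1 a) (t.1.2.1 a)
        fun b hb => congrFun hst (⟨a, ha⟩, ⟨b, hb⟩)) y
    exact congrFun (Continuous.ext_on hDd (s.1.2.2 y) (t.1.2.2 y) h1) x
  exact (hc.isClosedEmbedding hi).isEmbedding.metrizableSpace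

lemma cru_cont (p : X × Y) : Continuous[cru X Y, _] fun s : S X Y => s.1 p := by
  letI := cru X Y
  refine ⟨fun W hW => isOpen_iff_forall_mem_open.2 fun s hs => ?_⟩
  obtain ⟨r, hr, hb⟩ := EMetric.isOpen_iff.1 hW _ hs
  refine ⟨{t : S X Y | ⨆ q ∈ cross p, edist (s.1 q) (t.1 q) < r}, fun t ht => hb ?_,
    isOpen_generateFrom_of_mem ⟨p, s, r, rfl⟩, by simpa using hr⟩
  rw [Metric.mem_eball, edist_comm]
  exact lt_of_le_of_lt (le_iSup₂ (f := fun q (_ : q ∈ cross p) => edist (s.1 q) (t.1 q)) p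
    (Or.inl rfl)) ht

lemma cro_cont [T1Space X] [T1Space Y] (p : X × Y) :
    Continuous[cro X Y, _] fun s : S X Y => s.1 p := by
  letI := cro X Y
  refine ⟨fun W hW => isOpen_iff_forall_mem_open.2 fun s hs => ?_⟩
  obtain ⟨V, hV, hVc, hVW⟩ := exists_mem_nhds_isClosed_subset (hW.mem_nhds hs)
  obtain ⟨V', hV', hVo, hp⟩ := mem_nhds_iff.1 hV
  have hcont : ContinuousOn s.1 (cross p) := by
    have e : cross p = {q | q.2 = p.2} ∪ {q | q.1 = p.1} := rfl
    rw [e]
    refine ContinuousOn.union_of_isClosed ?_ ?_ (isClosed_singleton.preimage continuous_snd)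
      (isClosed_singleton.preimage continuous_fst)
    · refine (((s.2.2 p.2).comp continuous_fst).continuousOn).congr ?_
      rintro ⟨a, b⟩ h
      simp only [mem_ofPred_eq] at h
      simp [h]
    · refine (((s.2.1 p.1).comp continuous_snd).continuousOn).congr ?_
      rintro ⟨a, b⟩ h
      simp only [mem_ofPred_eq] at h
      simp [h]
  obtain ⟨G, hG, hGe⟩ := continuousOn_iff'.1 hcont V' hVo
  have hpG : p ∈ G ∩ cross p := hGe ▸ ⟨hp, Or.inl rfl⟩
  refine ⟨{t : S X Y | ∀ q ∈ closure (G ∩ cross p) ∩ cross p, t.1 q ∈ W},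
    fun t ht => ht p ⟨subset_closure hpG, hpG.2⟩,
    isOpen_generateFrom_of_mem ⟨p, G, W, hG, hW, rfl⟩, ?_⟩
  rintro q ⟨h1, h2⟩
  apply hVW
  have h3 := ((hcont q h2).mono inter_subset_right).mem_closure_image h1
  refine closure_minimal ?_ hVc h3
  rintro _ ⟨z, hz, rfl⟩
  rw [← hGe] at hz
  exact hV' hz.1

end

/-- Baire-one functions: pointwise limits of sequences of continuous functions. -/
def BaireOne {M : Type} [TopologicalSpace M] (f : M → ℝ) : Prop :=
  ∃ g : ℕ → C(M, ℝ), ∀ x, Filter.Tendsto (fun n => g n x) Filter.atTop (𝓝 (f x))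

noncomputable def K : Set (ℝ → ℝ) := insert 0 (range fun x : ℝ => (Pi.single x 1 : ℝ → ℝ))

lemma tK : Filter.Tendsto (fun x : ℝ => (Pi.single x 1 : ℝ → ℝ)) Filter.cofinite (𝓝 0) := by
  rw [tendsto_pi_nhds]
  intro y
  refine tendsto_const_nhds.congr' ?_
  filter_upwards [(Set.finite_singleton y).compl_mem_cofinite] with x hx
  rw [Pi.single_eq_of_ne' hx]; rfl

lemma K_compact : IsCompact K := tK.isCompact_insert_range_of_cofinite

lemma K_baire : ∀ f ∈ K, BaireOne f := by
  rintro f (rfl | ⟨x, rfl⟩)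
  · exact ⟨fun _ => 0, fun _ => tendsto_const_nhds⟩
  · refine ⟨fun n => ⟨fun y => (1 / (1 + |y - x|)) ^ n, ?_⟩, fun y => ?_⟩
    · exact (continuous_const.div (by fun_prop) fun y => by positivity).pow n
    · by_cases e : y = x
      · simp [e]
      · simp only [ContinuousMap.coe_mk, Pi.single_eq_of_ne e]
        have : 0 < |y - x| := abs_pos.2 (sub_ne_zero.2 e)
        exact tendsto_pow_atTop_nhds_zero_of_lt_one (by positivity)
          ((div_lt_one (by positivity)).2 (by linarith))

lemma K_not : ¬ MetrizableSpace K := by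
  intro h
  have h1 : Filter.Tendsto (fun x : ℝ => (⟨Pi.single x 1, Or.inr ⟨x, rfl⟩⟩ : K)) Filter.cofinite
      (𝓝 ⟨0, Or.inl rfl⟩) := tendsto_subtype_rng.2 tK
  refine Set.not_countable_univ (h1.countable_compl_preimage_ker.mono fun x _ hx => ?_)
  rw [ker_nhds] at hx
  have := congrFun (congrArg Subtype.val (mem_singleton_iff.1 hx)) x
  simp at this

lemma noemb {X Y : Type} [TopologicalSpace X] [TopologicalSpace Y] [SeparableSpace X]
    [SeparableSpace Y] (τ : TopologicalSpace (S X Y))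
    (h : ∀ p, Continuous[τ, _] fun s : S X Y => s.1 p) :
    ¬ ∃ e : K → S X Y, @IsEmbedding _ _ _ τ e := by
  rintro ⟨e, he⟩
  letI := τ
  haveI : CompactSpace K := isCompact_iff_compactSpace.1 K_compact
  have := metr τ h (range e) (isCompact_range he.continuous)
  exact K_not he.toHomeomorph.isEmbedding.metrizableSpace

theorem result : ∃ (M : Type) (_ : TopologicalSpace M) (K : Set (M → ℝ)), PolishSpace M ∧
    IsCompact K ∧ (∀ f ∈ K, BaireOne f) ∧
      ∀ (X Y : Type) [TopologicalSpace X] [TopologicalSpace Y] [PolishSpace X] [PolishSpace Y],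
        (¬ ∃ e : K → S X Y, @IsEmbedding _ _ _ (cro X Y) e) ∧
        (¬ ∃ e : K → S X Y, @IsEmbedding _ _ _ (cru X Y) e) :=
  ⟨ℝ, inferInstance, K, inferInstance, K_compact, K_baire,
    fun _ _ _ _ _ _ => ⟨noemb _ cro_cont, noemb _ cru_cont⟩⟩

end Pool.Agent.Results.MP_8a822d_gt.NoEmbed
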